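import Pool.Agent.Y150.KS.Main
import Pool.Agent.Y700.KS.Can
import Pool.Agent.Y38.KS.Gro
import Pool.Agent.Y288.KS.Pos
import Pool.Agent.Y427.KS.Lat

/-!
# The Kawaguchi-Silverman conjecture for commuting endomorphisms (helper150)
-/

set_option autoImplicit false

namespace Pool.Agent.Y150.KS

/-- Commuting endomorphisms with enough common nef eigenclasses, or of maximal rank. -/
theorem all (X : DynVar) (Γ : Submonoid X.E) {r : ℕ} (θ : Fin r → X.Pic) (χ : X.E → Fin r → ℝ)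
    (Z : Set X.V) (h : X.Eigen Γ θ χ Z) (hΓ : Enough Γ χ ∨ MaxRank Γ χ)
    (f : X.E) (hf : f ∈ Γ) (x : X.V) (hx : X.DenseOrbit f x) :
    ∃ δ : ℝ, X.IsDyn f δ ∧ X.IsArith f x δ := by
  have he : Enough Γ χ := by
    rcases hΓ with he | hm
    · exact he
    · exact Pool.Agent.Y427.KS.lat X.E X.mon Γ r χ h.chi_pos
        (fun g hg g' hg' i => chi_mul h hg hg' i) (fun i => chi_one h i) hm
  exact ksc Pool.Agent.Y700.KS.can Pool.Agent.Y288.KS.t_pos Pool.Agent.Y38.KS.Gro.gro h he f hf x hx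

end Pool.Agent.Y150.KS
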