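import Mathlib

/-!
# Heights, dynamical degrees and common nef eigenclasses (helper150)

The data of a normal projective variety over the algebraic numbers used in the proof of the
Kawaguchi-Silverman conjecture for commuting endomorphisms with enough nef eigenclasses
(`MP_0e7dfd_ag`).
-/

set_option autoImplicit false

open Filter Topology

namespace Pool.Agent.Y150.KS

/-- A normal projective variety over the algebraic numbers: its closed points with the Zariski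
topology, its surjective endomorphisms, `Pic = Pic(V) ⊗ ℝ` with the ample, nef and pseudo-effective
classes, Weil heights, and the intersection numbers `deg H L = (L · H ^ (d - 1))`. -/
structure DynVar where
  /-- the closed points -/
  V : Type
  [top : TopologicalSpace V]
  /-- the surjective endomorphisms -/
  E : Type
  [mon : Monoid E]
  /-- the action on the points -/
  act : E → V → V
  act_one : ∀ x, act 1 x = x
  act_mul : ∀ f g x, act (f * g) x = act f (act g x)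
  irred : ∀ C D : Set V, IsClosed C → IsClosed D → C ∪ D = Set.univ → C = Set.univ ∨ D = Set.univ
  closed_point : ∀ x : V, IsClosed ({x} : Set V)
  closed_eq : ∀ f g : E, IsClosed {x | act f x = act g x}
  faithful : ∀ f g : E, (∀ x, act f x = act g x) → f = g
  /-- the real classes of line bundles -/
  Pic : Type
  [addP : AddCommGroup Pic]
  [modP : Module ℝ Pic]
  /-- the pull-back -/
  pull : E → Pic → Pic
  pull_add : ∀ f L M, pull f (L + M) = pull f L + pull f M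
  pull_smul : ∀ (f : E) (c : ℝ) (L : Pic), pull f (c • L) = c • pull f L
  pull_one : ∀ L, pull 1 L = L
  pull_mul : ∀ f g L, pull (f * g) L = pull g (pull f L)
  /-- the ample classes -/
  ample : Set Pic
  /-- the nef classes -/
  nef : Set Pic
  /-- the pseudo-effective classes -/
  psef : Set Pic
  ample_ne : ample.Nonempty
  psef_pull : ∀ f, ∀ L ∈ psef, pull f L ∈ psef
  ample_dom : ∀ A ∈ ample, ∀ L, ∃ C : ℝ, 0 ≤ C ∧ C • A - L ∈ psef
  /-- a Weil height for every class -/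
  ht : Pic → V → ℝ
  ht_add : ∀ L M, ∃ C : ℝ, ∀ x, |ht (L + M) x - ht L x - ht M x| ≤ C
  ht_smul : ∀ (c : ℝ) (L : Pic), ∃ C : ℝ, ∀ x, |ht (c • L) x - c * ht L x| ≤ C
  ht_pull : ∀ f L, ∃ C : ℝ, ∀ x, |ht (pull f L) x - ht L (act f x)| ≤ C
  ht_ample : ∀ A ∈ ample, ∀ L, ∃ C : ℝ, 0 ≤ C ∧ ∀ x, ht L x ≤ C * ht A x + C
  ht_nef : ∀ L ∈ nef, ∀ A ∈ ample, ∀ ε : ℝ, 0 < ε → ∃ C : ℝ, ∀ x, -ε * ht A x - C ≤ ht L x
  northcott : ∀ A ∈ ample, ∀ (f : E) (x : V) (B : ℝ), (∀ n : ℕ, ht A (act (f ^ n) x) ≤ B) →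
    (Set.range fun n : ℕ => act (f ^ n) x).Finite
  /-- the number `(L · H ^ (d - 1))` -/
  deg : Pic → Pic → ℝ
  deg_add : ∀ H L M, deg H (L + M) = deg H L + deg H M
  deg_smul : ∀ (H : Pic) (c : ℝ) (L : Pic), deg H (c • L) = c * deg H L
  deg_psef : ∀ H ∈ ample, ∀ L ∈ psef, 0 ≤ deg H L
  deg_pull : ∀ H ∈ ample, ∃ c : ℝ, 0 < c ∧ ∀ f, c ≤ deg H (pull f H)

attribute [instance] DynVar.top DynVar.mon DynVar.addP DynVar.modP

namespace DynVar

variable (X : DynVar)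

/-- `δ` is the first dynamical degree of `f`. -/
def IsDyn (f : X.E) (δ : ℝ) : Prop :=
  ∀ H ∈ X.ample, Tendsto (fun n : ℕ => X.deg H (X.pull (f ^ n) H) ^ ((1 : ℝ) / n)) atTop (𝓝 δ)

/-- `α` is the arithmetic degree of `f` at `x`. -/
def IsArith (f : X.E) (x : X.V) (α : ℝ) : Prop :=
  ∀ H ∈ X.ample, Tendsto (fun n : ℕ => max (X.ht H (X.act (f ^ n) x)) 1 ^ ((1 : ℝ) / n)) atTop
    (𝓝 α)

/-- The forward orbit of `x` is Zariski dense. -/
def DenseOrbit (f : X.E) (x : X.V) : Prop :=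
  ∀ C : Set X.V, IsClosed C → (∀ n : ℕ, X.act (f ^ n) x ∈ C) → C = Set.univ

/-- `L` is big, and outside the proper closed subset `Z` (the augmented base locus of `L`) the
heights of `L` bound the heights of the ample classes. -/
def BigOff (L : X.Pic) (Z : Set X.V) : Prop :=
  IsClosed Z ∧ Z ≠ Set.univ ∧ ∀ A ∈ X.ample, ∃ C : ℝ, 0 ≤ C ∧ C • L - A ∈ X.psef ∧
    ∀ x, x ∉ Z → X.ht A x ≤ C * X.ht L x + C

/-- The elements of the submonoid `Γ` commute, the classes `θ i` are nef and not numerically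
trivial, `g^* θ i = χ g i • θ i` for `g` in `Γ`, and the sum of the `θ i` is big with bad locus
`Z`. -/
structure Eigen (Γ : Submonoid X.E) {r : ℕ} (θ : Fin r → X.Pic) (χ : X.E → Fin r → ℝ)
    (Z : Set X.V) : Prop where
  comm : ∀ f ∈ Γ, ∀ g ∈ Γ, f * g = g * f
  nef : ∀ i, θ i ∈ X.nef
  pos : ∀ i, ∀ H ∈ X.ample, 0 < X.deg H (θ i)
  eig : ∀ g ∈ Γ, ∀ i, X.pull g (θ i) = χ g i • θ i
  chi_pos : ∀ g ∈ Γ, ∀ i, 0 < χ g i
  big : X.BigOff (∑ i, θ i) Z
  inv : ∀ g ∈ Γ, ∀ x, x ∉ Z → X.act g x ∉ Z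

end DynVar

/-- For every `i` there is a `g` in `Γ` which expands `θ i` and none of the other classes. -/
def Enough {E : Type} [Monoid E] (Γ : Submonoid E) {r : ℕ} (χ : E → Fin r → ℝ) : Prop :=
  ∀ i, ∃ g ∈ Γ, 1 < χ g i ∧ ∀ j, j ≠ i → χ g j ≤ 1

/-- `Γ` is of maximal rank: the products of the `χ g i` are `1`, and the vectors `log χ g` span the
hyperplane of all vectors with sum `0` (of dimension `r - 1`, with `r ≥ 2`). -/
def MaxRank {E : Type} [Monoid E] (Γ : Submonoid E) {r : ℕ} (χ : E → Fin r → ℝ) : Prop :=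
  2 ≤ r ∧ (∀ g ∈ Γ, ∃ h ∈ Γ, g * h = 1) ∧ (∀ g ∈ Γ, ∏ i, χ g i = 1) ∧
    ∀ v : Fin r → ℝ, ∑ i, v i = 0 →
      v ∈ Submodule.span ℝ {w : Fin r → ℝ | ∃ g ∈ Γ, w = fun i => Real.log (χ g i)}

/-! ## The steps of the proof -/

/-- Canonical heights. -/
def S_can : Prop := ∀ (X : DynVar) (Γ : Submonoid X.E) (r : ℕ) (θ : Fin r → X.Pic)
  (χ : X.E → Fin r → ℝ) (Z : Set X.V), X.Eigen Γ θ χ Z → Enough Γ χ →
  ∃ k : Fin r → X.V → ℝ, (∀ i, ∃ C : ℝ, ∀ x, |k i x - X.ht (θ i) x| ≤ C) ∧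
    ∀ g ∈ Γ, ∀ i x, k i (X.act g x) = χ g i * k i x

/-- Positivity of the canonical heights of the points with dense orbits. -/
def S_pos : Prop := ∀ (X : DynVar) (Γ : Submonoid X.E) (r : ℕ) (θ : Fin r → X.Pic)
  (χ : X.E → Fin r → ℝ) (Z : Set X.V), X.Eigen Γ θ χ Z → Enough Γ χ →
  ∀ k : Fin r → X.V → ℝ, (∀ i, ∃ C : ℝ, ∀ x, |k i x - X.ht (θ i) x| ≤ C) →
    (∀ g ∈ Γ, ∀ i x, k i (X.act g x) = χ g i * k i x) →
    ∀ f ∈ Γ, ∀ x, X.DenseOrbit f x → ∀ i, 0 < k i x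

/-- Growth of sequences. -/
def S_gro : Prop := (∀ (u : ℕ → ℝ) (l c C : ℝ), 1 ≤ l → 0 < c →
    (∀ n, c * l ^ n - C ≤ u n) → (∀ n, u n ≤ C * l ^ n + C) →
    Tendsto (fun n : ℕ => max (u n) 1 ^ ((1 : ℝ) / n)) atTop (𝓝 l)) ∧
  ∀ (u : ℕ → ℝ) (l c C : ℝ), 0 < l → 0 < c →
    (∀ n, c * l ^ n ≤ u n) → (∀ n, u n ≤ C * l ^ n) →
    Tendsto (fun n : ℕ => u n ^ ((1 : ℝ) / n)) atTop (𝓝 l)

/-- Maximal rank. -/
def S_lat : Prop := ∀ (E : Type) (_ : Monoid E) (Γ : Submonoid E) (r : ℕ) (χ : E → Fin r → ℝ),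
  (∀ g ∈ Γ, ∀ i, 0 < χ g i) → (∀ g ∈ Γ, ∀ h ∈ Γ, ∀ i, χ (g * h) i = χ g i * χ h i) →
  (∀ i, χ 1 i = 1) → MaxRank Γ χ → Enough Γ χ

end Pool.Agent.Y150.KS
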