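import Pool.Agent.Y150.KS.Defs

/-!
# The assembly (helper150)
-/

set_option autoImplicit false

open Filter Topology

namespace Pool.Agent.Y150.KS

variable {X : DynVar}

theorem pull_sum (f : X.E) {r : ℕ} (θ : Fin r → X.Pic) (s : Finset (Fin r)) :
    X.pull f (∑ i ∈ s, θ i) = ∑ i ∈ s, X.pull f (θ i) := by
  classical
  induction s using Finset.induction_on with
  | empty =>
    rw [Finset.sum_empty, Finset.sum_empty]
    have := X.pull_smul f 0 0
    rwa [zero_smul, zero_smul] at this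
  | insert a s ha ih => rw [Finset.sum_insert ha, Finset.sum_insert ha, X.pull_add, ih]

theorem deg_zero (H : X.Pic) : X.deg H 0 = 0 := by
  have := X.deg_smul H 0 0
  rwa [zero_smul, zero_mul] at this

theorem deg_sum (H : X.Pic) {r : ℕ} (θ : Fin r → X.Pic) (s : Finset (Fin r)) :
    X.deg H (∑ i ∈ s, θ i) = ∑ i ∈ s, X.deg H (θ i) := by
  classical
  induction s using Finset.induction_on with
  | empty => rw [Finset.sum_empty, Finset.sum_empty, deg_zero]
  | insert a s ha ih => rw [Finset.sum_insert ha, Finset.sum_insert ha, X.deg_add, ih]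

theorem deg_neg (H L : X.Pic) : X.deg H (-L) = -X.deg H L := by
  have := X.deg_smul H (-1) L
  rwa [neg_one_smul, neg_one_mul] at this

theorem deg_sub (H L M : X.Pic) : X.deg H (L - M) = X.deg H L - X.deg H M := by
  rw [sub_eq_add_neg, X.deg_add, deg_neg, sub_eq_add_neg]

theorem pull_neg (f : X.E) (L : X.Pic) : X.pull f (-L) = -X.pull f L := by
  have := X.pull_smul f (-1) L
  rwa [neg_one_smul, neg_one_smul] at this

theorem pull_sub (f : X.E) (L M : X.Pic) : X.pull f (L - M) = X.pull f L - X.pull f M := by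
  rw [sub_eq_add_neg, X.pull_add, pull_neg, sub_eq_add_neg]

/-- Domination of classes bounds the degrees of the pull-backs. -/
theorem deg_le {H L M : X.Pic} (hH : H ∈ X.ample) {C : ℝ} (h : C • L - M ∈ X.psef) (f : X.E) :
    X.deg H (X.pull f M) ≤ C * X.deg H (X.pull f L) := by
  have h1 := X.deg_psef H hH _ (X.psef_pull f _ h)
  rw [pull_sub, X.pull_smul, deg_sub, X.deg_smul] at h1
  linarith

theorem act_pow_succ (f : X.E) (n : ℕ) (x : X.V) :
    X.act (f ^ (n + 1)) x = X.act f (X.act (f ^ n) x) := by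
  rw [pow_succ', X.act_mul]

variable {Γ : Submonoid X.E} {r : ℕ} {θ : Fin r → X.Pic} {χ : X.E → Fin r → ℝ} {Z : Set X.V}

theorem chi_mul (h : X.Eigen Γ θ χ Z) {f g : X.E} (hf : f ∈ Γ) (hg : g ∈ Γ) (i : Fin r) :
    χ (f * g) i = χ f i * χ g i := by
  obtain ⟨H, hH⟩ := X.ample_ne
  have h1 : X.pull (f * g) (θ i) = (χ f i * χ g i) • θ i := by
    rw [X.pull_mul, h.eig f hf, X.pull_smul, h.eig g hg, smul_smul]
  have h2 := h.eig _ (Γ.mul_mem hf hg) i
  have h3 : χ (f * g) i * X.deg H (θ i) = χ f i * χ g i * X.deg H (θ i) := by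
    rw [← X.deg_smul, ← X.deg_smul, ← h1, ← h2]
  exact mul_right_cancel₀ (h.pos i H hH).ne' h3

theorem chi_one (h : X.Eigen Γ θ χ Z) (i : Fin r) : χ 1 i = 1 := by
  obtain ⟨H, hH⟩ := X.ample_ne
  have h2 := h.eig _ Γ.one_mem i
  rw [X.pull_one] at h2
  have h3 : X.deg H (θ i) = χ 1 i * X.deg H (θ i) := by
    rw [← X.deg_smul, ← h2]
  have h4 := h.pos i H hH
  have : (χ 1 i - 1) * X.deg H (θ i) = 0 := by linarith
  rcases mul_eq_zero.1 this with h5 | h5
  · linarith
  · linarith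

theorem chi_pow (h : X.Eigen Γ θ χ Z) {f : X.E} (hf : f ∈ Γ) (n : ℕ) (i : Fin r) :
    χ (f ^ n) i = χ f i ^ n := by
  induction n with
  | zero => rw [pow_zero, pow_zero, chi_one h]
  | succ n ih => rw [pow_succ, chi_mul h (Γ.pow_mem hf n) hf, ih, pow_succ]

/-- The heights of a sum. -/
theorem ht_sum (θ : Fin r → X.Pic) (s : Finset (Fin r)) :
    ∃ C : ℝ, ∀ x, |X.ht (∑ i ∈ s, θ i) x - ∑ i ∈ s, X.ht (θ i) x| ≤ C := by
  classical
  induction s using Finset.induction_on with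
  | empty =>
    obtain ⟨C, hC⟩ := X.ht_smul 0 0
    refine ⟨C, fun x => ?_⟩
    have := hC x
    rw [zero_smul, zero_mul] at this
    rw [Finset.sum_empty, Finset.sum_empty]
    exact this
  | insert a s ha ih =>
    obtain ⟨C, hC⟩ := ih
    obtain ⟨D, hD⟩ := X.ht_add (θ a) (∑ i ∈ s, θ i)
    refine ⟨C + D, fun x => ?_⟩
    rw [Finset.sum_insert ha, Finset.sum_insert ha]
    have h1 := abs_le.1 (hC x)
    have h2 := abs_le.1 (hD x)
    exact abs_le.2 ⟨by linarith [h1.1, h2.1], by linarith [h1.2, h2.2]⟩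

theorem ht_low {A : X.Pic} (hA : A ∈ X.ample) : ∃ B : ℝ, 0 ≤ B ∧ ∀ x, -B ≤ X.ht A x := by
  obtain ⟨C, hC, h1⟩ := X.ht_ample A hA (-A)
  obtain ⟨D, h2⟩ := X.ht_smul (-1) A
  refine ⟨|(C + D) / (1 + C)|, abs_nonneg _, fun x => ?_⟩
  have h3 := h1 x
  have h4 := (abs_le.1 (h2 x)).1
  rw [neg_one_smul] at h4
  have h5 : 0 < 1 + C := by linarith
  have h6 : -((C + D) / (1 + C)) ≤ X.ht A x := by
    rw [← neg_div, div_le_iff₀ h5]
    nlinarith
  linarith [le_abs_self ((C + D) / (1 + C))]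

theorem ksc (hcan : S_can) (hpos : S_pos) (hgro : S_gro) (h : X.Eigen Γ θ χ Z)
    (he : Enough Γ χ) (f : X.E) (hf : f ∈ Γ) (x : X.V) (hx : X.DenseOrbit f x) :
    ∃ δ : ℝ, X.IsDyn f δ ∧ X.IsArith f x δ := by
  classical
  obtain ⟨k, hk, hk'⟩ := hcan X Γ r θ χ Z h he
  have kpos := hpos X Γ r θ χ Z h he k hk hk' f hf x hx
  choose D hD using hk
  -- the number of classes is positive
  have hr : Nonempty (Fin r) := by
    by_contra hr
    rw [not_nonempty_iff] at hr
    obtain ⟨H, hH⟩ := X.ample_ne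
    obtain ⟨-, -, hb⟩ := h.big
    obtain ⟨C, hC, hp, -⟩ := hb H hH
    obtain ⟨c, hc, hc'⟩ := X.deg_pull H hH
    have h1 := X.deg_psef H hH _ hp
    rw [Finset.univ_eq_empty, Finset.sum_empty, smul_zero, zero_sub, deg_neg] at h1
    have h2 := hc' 1
    rw [X.pull_one] at h2
    linarith
  obtain ⟨i₀, -, hmax⟩ := Finset.exists_max_image Finset.univ (χ f) ⟨hr.some, Finset.mem_univ _⟩
  set l := χ f i₀ with hl
  have hl0 : 0 < l := h.chi_pos f hf i₀
  have hle : ∀ j, χ f j ≤ l := fun j => hmax j (Finset.mem_univ j)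
  have hle' : ∀ (n : ℕ) (j : Fin r), χ f j ^ n ≤ l ^ n := fun n j =>
    pow_le_pow_left₀ (h.chi_pos f hf j).le (hle j) n
  have kn : ∀ (n : ℕ) (j : Fin r), k j (X.act (f ^ n) x) = χ f j ^ n * k j x := by
    intro n j
    rw [hk' _ (Γ.pow_mem hf n), chi_pow h hf]
  -- degrees
  have dn : ∀ (n : ℕ) (j : Fin r) (H : X.Pic), X.deg H (X.pull (f ^ n) (θ j))
      = χ f j ^ n * X.deg H (θ j) := by
    intro n j H
    rw [h.eig _ (Γ.pow_mem hf n), X.deg_smul, chi_pow h hf]
  have dyn : ∀ H ∈ X.ample, ∃ c C : ℝ, 0 < c ∧ (∀ n : ℕ, c * l ^ n ≤ X.deg H (X.pull (f ^ n) H)) ∧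
      ∀ n : ℕ, X.deg H (X.pull (f ^ n) H) ≤ C * l ^ n := by
    intro H hH
    obtain ⟨C₁, hC₁, hp₁⟩ := X.ample_dom H hH (θ i₀)
    obtain ⟨-, -, hb⟩ := h.big
    obtain ⟨C₂, hC₂, hp₂, -⟩ := hb H hH
    have hθ := h.pos i₀ H hH
    have low : ∀ n : ℕ, l ^ n * X.deg H (θ i₀) ≤ C₁ * X.deg H (X.pull (f ^ n) H) := by
      intro n
      have := deg_le hH hp₁ (f ^ n)
      rwa [dn] at this
    have hC₁' : 0 < C₁ := by
      rcases hC₁.lt_or_eq with h0 | h0
      · exact h0
      · have := low 0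
        rw [← h0, zero_mul, pow_zero, one_mul] at this
        linarith
    refine ⟨X.deg H (θ i₀) / C₁, C₂ * ∑ j, X.deg H (θ j), div_pos hθ hC₁', fun n => ?_,
      fun n => ?_⟩
    · rw [div_mul_eq_mul_div, div_le_iff₀ hC₁']
      nlinarith [low n]
    · have := deg_le hH hp₂ (f ^ n)
      rw [pull_sum, deg_sum] at this
      refine this.trans ?_
      rw [mul_assoc, Finset.sum_mul]
      refine mul_le_mul_of_nonneg_left (Finset.sum_le_sum fun j _ => ?_) hC₂
      rw [dn, mul_comm]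
      exact mul_le_mul_of_nonneg_left (hle' n j) (h.pos j H hH).le
  -- the expansion is at least one
  have hl1 : 1 ≤ l := by
    by_contra hl1
    rw [not_le] at hl1
    obtain ⟨H, hH⟩ := X.ample_ne
    obtain ⟨c, C, hc, -, hup⟩ := dyn H hH
    obtain ⟨c', hc', hc''⟩ := X.deg_pull H hH
    have ht : Tendsto (fun n : ℕ => C * l ^ n) atTop (𝓝 (C * 0)) :=
      (tendsto_pow_atTop_nhds_zero_of_lt_one hl0.le hl1).const_mul C
    have := ge_of_tendsto' ht fun n => (hc'' (f ^ n)).trans (hup n)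
    rw [mul_zero] at this
    linarith
  refine ⟨l, ?_, ?_⟩
  · intro H hH
    obtain ⟨c, C, hc, hlow, hup⟩ := dyn H hH
    exact hgro.2 _ l c C hl0 hc hlow hup
  · intro A hA
    -- a point of the orbit outside `Z`
    obtain ⟨hZc, hZ, hb⟩ := h.big
    obtain ⟨m, hm⟩ : ∃ m : ℕ, X.act (f ^ m) x ∉ Z := by
      by_contra hcon
      push Not at hcon
      exact hZ (hx Z hZc hcon)
    have hm' : ∀ n : ℕ, X.act (f ^ (m + n)) x ∉ Z := by
      intro n
      induction n with
      | zero => exact hm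
      | succ n ih =>
        rw [← add_assoc, act_pow_succ]
        exact h.inv f hf _ ih
    obtain ⟨C, hC, -, hCA⟩ := hb A hA
    obtain ⟨C', hC', hCA'⟩ := X.ht_ample A hA (θ i₀)
    obtain ⟨S, hS⟩ := ht_sum θ Finset.univ
    -- upper bound outside `Z`
    have up : ∀ n : ℕ, X.ht A (X.act (f ^ (m + n)) x)
        ≤ C * (l ^ (m + n) * ∑ j, k j x) + (C * (∑ j, D j + S) + C) := by
      intro n
      refine (hCA _ (hm' n)).trans ?_
      have h1 := (abs_le.1 (hS (X.act (f ^ (m + n)) x))).2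
      have h2 : ∑ j, X.ht (θ j) (X.act (f ^ (m + n)) x) ≤ l ^ (m + n) * ∑ j, k j x + ∑ j, D j := by
        rw [Finset.mul_sum, ← Finset.sum_add_distrib]
        refine Finset.sum_le_sum fun j _ => ?_
        have h3 := (abs_le.1 (hD j (X.act (f ^ (m + n)) x))).1
        rw [kn] at h3
        have h4 : χ f j ^ (m + n) * k j x ≤ l ^ (m + n) * k j x :=
          mul_le_mul_of_nonneg_right (hle' _ j) (kpos j).le
        linarith
      have h5 : X.ht (∑ j, θ j) (X.act (f ^ (m + n)) x)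
          ≤ l ^ (m + n) * ∑ j, k j x + ∑ j, D j + S := by linarith
      have := mul_le_mul_of_nonneg_left h5 hC
      linarith
    -- lower bound
    have low : ∀ n : ℕ, l ^ n * k i₀ x - D i₀ ≤ C' * X.ht A (X.act (f ^ n) x) + C' := by
      intro n
      have h3 := (abs_le.1 (hD i₀ (X.act (f ^ n) x))).2
      rw [kn] at h3
      have := hCA' (X.act (f ^ n) x)
      linarith
    obtain ⟨B, hB, hB'⟩ := ht_low hA
    have hln : ∀ n : ℕ, 1 ≤ l ^ n := fun n => one_le_pow₀ hl1
    set K₁ := C * ∑ j, k j x with hK₁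
    set K₂ := C * (∑ j, D j + S) + C with hK₂
    set M₀ := ∑ j ∈ Finset.range m, |X.ht A (X.act (f ^ j) x)| with hM₀
    have hM0 : 0 ≤ M₀ := Finset.sum_nonneg fun j _ => abs_nonneg _
    have upall : ∀ n : ℕ, X.ht A (X.act (f ^ n) x) ≤ |K₁| * l ^ n + (|K₂| + M₀) := by
      intro n
      rcases lt_or_ge n m with hn | hn
      · have h1 : |X.ht A (X.act (f ^ n) x)| ≤ M₀ :=
          Finset.single_le_sum (f := fun j => |X.ht A (X.act (f ^ j) x)|)
            (fun j _ => abs_nonneg _) (Finset.mem_range.2 hn)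
        have h2 := le_abs_self (X.ht A (X.act (f ^ n) x))
        have h3 : 0 ≤ |K₁| * l ^ n := mul_nonneg (abs_nonneg _) (by linarith [hln n])
        linarith [abs_nonneg K₂]
      · obtain ⟨j, rfl⟩ := Nat.exists_eq_add_of_le hn
        have h1 := up j
        have h2 : C * (l ^ (m + j) * ∑ j, k j x) = K₁ * l ^ (m + j) := by
          rw [hK₁]; ring
        rw [h2] at h1
        have h3 : K₁ * l ^ (m + j) ≤ |K₁| * l ^ (m + j) :=
          mul_le_mul_of_nonneg_right (le_abs_self _) (by linarith [hln (m + j)])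
        linarith [le_abs_self K₂]
    have lowall : ∀ n : ℕ, k i₀ x / (C' + 1) * l ^ n - (|D i₀| + B + C' + 1) / (C' + 1)
        ≤ X.ht A (X.act (f ^ n) x) := by
      intro n
      have h1 := low n
      have h2 := hB' (X.act (f ^ n) x)
      have h3 : 0 < C' + 1 := by linarith
      have h4 : k i₀ x / (C' + 1) * l ^ n - (|D i₀| + B + C' + 1) / (C' + 1)
          = (k i₀ x * l ^ n - (|D i₀| + B + C' + 1)) / (C' + 1) := by
        field_simp
      rw [h4, div_le_iff₀ h3]
      have h5 := le_abs_self (D i₀)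
      nlinarith
    set Q := |K₁| + |K₂| + M₀ + (|D i₀| + B + C' + 1) / (C' + 1) with hQ
    have hq : 0 ≤ (|D i₀| + B + C' + 1) / (C' + 1) :=
      div_nonneg (by linarith [abs_nonneg (D i₀)]) (by linarith)
    refine hgro.1 _ l (k i₀ x / (C' + 1)) Q hl1 (div_pos (kpos i₀) (by linarith)) (fun n => ?_)
      (fun n => ?_)
    · have := lowall n
      have h1 : (|D i₀| + B + C' + 1) / (C' + 1) ≤ Q := by
        rw [hQ]; linarith [abs_nonneg K₁, abs_nonneg K₂]
      linarith
    · have h1 := upall n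
      have h2 : |K₁| * l ^ n ≤ Q * l ^ n := by
        refine mul_le_mul_of_nonneg_right ?_ (by linarith [hln n])
        rw [hQ]; linarith [abs_nonneg K₂]
      have h3 : |K₂| + M₀ ≤ Q := by rw [hQ]; linarith [abs_nonneg K₁]
      linarith

end Pool.Agent.Y150.KS
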