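import Pool.Agent.Y150.KS.All

/-!
# Points of small arithmetic degree (helper150)
-/

set_option autoImplicit false

open Filter Topology

namespace Pool.Agent.Y150.KS

/-- For every `i` there is a `g` in `Γ` which expands `θ i` and contracts all the other classes. -/
def StrictlyEnough {E : Type} [Monoid E] (Γ : Submonoid E) {r : ℕ} (χ : E → Fin r → ℝ) : Prop :=
  ∀ i, ∃ g ∈ Γ, 1 < χ g i ∧ ∀ j, j ≠ i → χ g j < 1

/-- The set `P` of points contains only finitely many points of bounded height, for every ample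
class. (This is the theorem of Northcott for the points of degree at most `d` over a number
field.) -/
def HasNorthcott (X : DynVar) (P : Set X.V) : Prop :=
  ∀ A ∈ X.ample, ∀ B : ℝ, {x | x ∈ P ∧ X.ht A x ≤ B}.Finite

variable {X : DynVar} {Γ : Submonoid X.E} {r : ℕ} {θ : Fin r → X.Pic} {χ : X.E → Fin r → ℝ}
  {Z : Set X.V}

theorem nonempty_fin (h : X.Eigen Γ θ χ Z) : Nonempty (Fin r) := by
  by_contra hr
  rw [not_nonempty_iff] at hr
  obtain ⟨H, hH⟩ := X.ample_ne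
  obtain ⟨-, -, hb⟩ := h.big
  obtain ⟨C, hC, hp, -⟩ := hb H hH
  obtain ⟨c, hc, hc'⟩ := X.deg_pull H hH
  have h1 := X.deg_psef H hH _ hp
  rw [Finset.univ_eq_empty, Finset.sum_empty, smul_zero, zero_sub, deg_neg] at h1
  have h2 := hc' 1
  rw [X.pull_one] at h2
  linarith

/-- The first dynamical degree is the largest of the numbers `χ f i`. -/
theorem dyn_max (hgro : S_gro) (h : X.Eigen Γ θ χ Z) {f : X.E} (hf : f ∈ Γ) {i₀ : Fin r}
    (hle : ∀ j, χ f j ≤ χ f i₀) : X.IsDyn f (χ f i₀) ∧ 1 ≤ χ f i₀ := by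
  set l := χ f i₀ with hl
  have hl0 : 0 < l := h.chi_pos f hf i₀
  have hle' : ∀ (n : ℕ) (j : Fin r), χ f j ^ n ≤ l ^ n := fun n j =>
    pow_le_pow_left₀ (h.chi_pos f hf j).le (hle j) n
  have dn : ∀ (n : ℕ) (j : Fin r) (H : X.Pic), X.deg H (X.pull (f ^ n) (θ j))
      = χ f j ^ n * X.deg H (θ j) := by
    intro n j H
    rw [h.eig _ (Γ.pow_mem hf n), X.deg_smul, chi_pow h hf]
  have dyn : ∀ H ∈ X.ample, ∃ c C : ℝ, 0 < c ∧ (∀ n : ℕ, c * l ^ n ≤ X.deg H (X.pull (f ^ n) H)) ∧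
      ∀ n : ℕ, X.deg H (X.pull (f ^ n) H) ≤ C * l ^ n := by
    intro H hH
    obtain ⟨C₁, hC₁, hp₁⟩ := X.ample_dom H hH (θ i₀)
    obtain ⟨-, -, hb⟩ := h.big
    obtain ⟨C₂, hC₂, hp₂, -⟩ := hb H hH
    have hθ := h.pos i₀ H hH
    have low : ∀ n : ℕ, l ^ n * X.deg H (θ i₀) ≤ C₁ * X.deg H (X.pull (f ^ n) H) := by
      intro n
      have := deg_le hH hp₁ (f ^ n)
      rwa [dn] at this
    have hC₁' : 0 < C₁ := by
      rcases hC₁.lt_or_eq with h0 | h0
      · exact h0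
      · have := low 0
        rw [← h0, zero_mul, pow_zero, one_mul] at this
        linarith
    refine ⟨X.deg H (θ i₀) / C₁, C₂ * ∑ j, X.deg H (θ j), div_pos hθ hC₁', fun n => ?_,
      fun n => ?_⟩
    · rw [div_mul_eq_mul_div, div_le_iff₀ hC₁']
      nlinarith [low n]
    · have := deg_le hH hp₂ (f ^ n)
      rw [pull_sum, deg_sum] at this
      refine this.trans ?_
      rw [mul_assoc, Finset.sum_mul]
      refine mul_le_mul_of_nonneg_left (Finset.sum_le_sum fun j _ => ?_) hC₂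
      rw [dn, mul_comm]
      exact mul_le_mul_of_nonneg_left (hle' n j) (h.pos j H hH).le
  refine ⟨?_, ?_⟩
  · intro H hH
    obtain ⟨c, C, hc, hlow, hup⟩ := dyn H hH
    exact hgro.2 _ l c C hl0 hc hlow hup
  · by_contra hl1
    rw [not_le] at hl1
    obtain ⟨H, hH⟩ := X.ample_ne
    obtain ⟨c, C, hc, -, hup⟩ := dyn H hH
    obtain ⟨c', hc', hc''⟩ := X.deg_pull H hH
    have ht : Tendsto (fun n : ℕ => C * l ^ n) atTop (𝓝 (C * 0)) :=
      (tendsto_pow_atTop_nhds_zero_of_lt_one hl0.le hl1).const_mul C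
    have := ge_of_tendsto' ht fun n => (hc'' (f ^ n)).trans (hup n)
    rw [mul_zero] at this
    linarith

theorem k_pow {k : Fin r → X.V → ℝ} (h : X.Eigen Γ θ χ Z)
    (hk' : ∀ g ∈ Γ, ∀ i x, k i (X.act g x) = χ g i * k i x) {f : X.E} (hf : f ∈ Γ) (n : ℕ)
    (j : Fin r) (x : X.V) : k j (X.act (f ^ n) x) = χ f j ^ n * k j x := by
  rw [hk' _ (Γ.pow_mem hf n), chi_pow h hf]

theorem off_pow (h : X.Eigen Γ θ χ Z) {f : X.E} (hf : f ∈ Γ) {x : X.V} (hx : x ∉ Z) (n : ℕ) :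
    X.act (f ^ n) x ∉ Z := h.inv _ (Γ.pow_mem hf n) x hx

/-- The heights are bounded by the canonical heights outside `Z`. -/
theorem ht_up {k : Fin r → X.V → ℝ} (h : X.Eigen Γ θ χ Z)
    (hk : ∀ i, ∃ C : ℝ, ∀ x, |k i x - X.ht (θ i) x| ≤ C) {A : X.Pic} (hA : A ∈ X.ample) :
    ∃ C C' : ℝ, 0 ≤ C ∧ ∀ x, x ∉ Z → X.ht A x ≤ C * ∑ j, k j x + C' := by
  choose D hD using hk
  obtain ⟨-, -, hb⟩ := h.big
  obtain ⟨C, hC, -, hCA⟩ := hb A hA
  obtain ⟨S, hS⟩ := ht_sum θ Finset.univ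
  refine ⟨C, C * (∑ j, D j + S) + C, hC, fun x hx => (hCA _ hx).trans ?_⟩
  have h1 := (abs_le.1 (hS x)).2
  have h2 : ∑ j, X.ht (θ j) x ≤ ∑ j, k j x + ∑ j, D j := by
    rw [← Finset.sum_add_distrib]
    refine Finset.sum_le_sum fun j _ => ?_
    have h3 := (abs_le.1 (hD j x)).1
    linarith
  have h5 : X.ht (∑ j, θ j) x ≤ ∑ j, k j x + (∑ j, D j + S) := by linarith
  have := mul_le_mul_of_nonneg_left h5 hC
  linarith

/-- If the canonical height of the most expanded class is positive then the arithmetic degree is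
the dynamical degree. -/
theorem arith_pos (hgro : S_gro) {k : Fin r → X.V → ℝ} (h : X.Eigen Γ θ χ Z)
    (hk : ∀ i, ∃ C : ℝ, ∀ x, |k i x - X.ht (θ i) x| ≤ C)
    (hk' : ∀ g ∈ Γ, ∀ i x, k i (X.act g x) = χ g i * k i x) {f : X.E} (hf : f ∈ Γ) {i₀ : Fin r}
    (hle : ∀ j, χ f j ≤ χ f i₀) (hl1 : 1 ≤ χ f i₀) {x : X.V} (hx : x ∉ Z) (kpos : 0 < k i₀ x) :
    X.IsArith f x (χ f i₀) := by
  intro A hA
  set l := χ f i₀ with hl
  have hle' : ∀ (n : ℕ) (j : Fin r), χ f j ^ n ≤ l ^ n := fun n j =>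
    pow_le_pow_left₀ (h.chi_pos f hf j).le (hle j) n
  have hln : ∀ n : ℕ, 1 ≤ l ^ n := fun n => one_le_pow₀ hl1
  obtain ⟨C, C₂, hC, hup⟩ := ht_up h hk hA
  obtain ⟨C', hC', hCA'⟩ := X.ht_ample A hA (θ i₀)
  obtain ⟨D, hD⟩ := hk i₀
  have up : ∀ n : ℕ, X.ht A (X.act (f ^ n) x) ≤ (C * ∑ j, |k j x|) * l ^ n + C₂ := by
    intro n
    refine (hup _ (off_pow h hf hx n)).trans ?_
    have h2 : ∑ j, k j (X.act (f ^ n) x) ≤ l ^ n * ∑ j, |k j x| := by
      rw [Finset.mul_sum]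
      refine Finset.sum_le_sum fun j _ => ?_
      rw [k_pow h hk' hf]
      calc χ f j ^ n * k j x ≤ χ f j ^ n * |k j x| :=
            mul_le_mul_of_nonneg_left (le_abs_self _) (pow_pos (h.chi_pos f hf j) n).le
        _ ≤ l ^ n * |k j x| := mul_le_mul_of_nonneg_right (hle' n j) (abs_nonneg _)
    have := mul_le_mul_of_nonneg_left h2 hC
    linarith
  have low : ∀ n : ℕ, k i₀ x / (C' + 1) * l ^ n - (|D| + |C'| + 1 + (ht_low hA).choose)
      ≤ X.ht A (X.act (f ^ n) x) := by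
    intro n
    obtain ⟨hB0, hB⟩ := (ht_low hA).choose_spec
    have h3 := (abs_le.1 (hD (X.act (f ^ n) x))).2
    rw [k_pow h hk' hf] at h3
    have h4 := hCA' (X.act (f ^ n) x)
    have h5 := hB (X.act (f ^ n) x)
    have h6 : 0 < C' + 1 := by linarith
    have h7 : l ^ n * k i₀ x ≤ (C' + 1) * (X.ht A (X.act (f ^ n) x)
        + (|D| + |C'| + 1 + (ht_low hA).choose)) := by
      have e1 := le_abs_self D
      have e2 := le_abs_self C'
      have e3 := abs_nonneg D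
      have e4 := abs_nonneg C'
      nlinarith [mul_nonneg hC' (abs_nonneg D), mul_nonneg hC' (abs_nonneg C'),
        mul_nonneg hC' hB0]
    have h8 : k i₀ x / (C' + 1) * l ^ n ≤ X.ht A (X.act (f ^ n) x)
        + (|D| + |C'| + 1 + (ht_low hA).choose) := by
      rw [div_mul_eq_mul_div, div_le_iff₀ h6]
      linarith
    linarith
  set B := (ht_low hA).choose with hBdef
  have hB0 : 0 ≤ B := (ht_low hA).choose_spec.1
  set S := C * (∑ j, |k j x|) with hS
  set Q := |S| + |C₂| + (|D| + |C'| + 1 + B) with hQ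
  refine hgro.1 _ l (k i₀ x / (C' + 1)) Q hl1 (div_pos kpos (by linarith)) (fun n => ?_)
    (fun n => ?_)
  · have := low n
    have h1 : |D| + |C'| + 1 + B ≤ Q := by
      rw [hQ]; linarith [abs_nonneg S, abs_nonneg C₂]
    linarith
  · have h1 := up n
    have h2 : S * l ^ n ≤ Q * l ^ n := by
      refine mul_le_mul_of_nonneg_right ?_ (by linarith [hln n])
      rw [hQ]
      linarith [le_abs_self S, abs_nonneg C₂, abs_nonneg D, abs_nonneg C']
    have h3 : C₂ ≤ Q := by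
      rw [hQ]
      linarith [abs_nonneg S, le_abs_self C₂, abs_nonneg D, abs_nonneg C']
    linarith

/-- If one canonical height is not positive then all canonical heights are zero. -/
theorem zero_of_nonpos {k : Fin r → X.V → ℝ} (h : X.Eigen Γ θ χ Z)
    (hk : ∀ i, ∃ C : ℝ, ∀ x, |k i x - X.ht (θ i) x| ≤ C)
    (hk' : ∀ g ∈ Γ, ∀ i x, k i (X.act g x) = χ g i * k i x) {i : Fin r} {g : X.E} (hg : g ∈ Γ)
    (hc : 1 < χ g i) (hj : ∀ j, j ≠ i → χ g j < 1) {x : X.V} (hx : x ∉ Z) (hneg : k i x ≤ 0) :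
    ∀ j, k j x = 0 := by
  obtain ⟨A, hA⟩ := X.ample_ne
  obtain ⟨C, C₂, hC, hup⟩ := ht_up h hk hA
  have hbd : ∀ n : ℕ, X.ht A (X.act (g ^ n) x) ≤ C * ∑ j, |k j x| + C₂ := by
    intro n
    refine (hup _ (off_pow h hg hx n)).trans ?_
    have h3 : ∑ j, k j (X.act (g ^ n) x) ≤ ∑ j, |k j x| := by
      refine Finset.sum_le_sum fun j _ => ?_
      rw [k_pow h hk' hg]
      by_cases hji : j = i
      · rw [hji]
        exact (mul_nonpos_of_nonneg_of_nonpos (pow_pos (h.chi_pos g hg i) n).le hneg).trans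
          (abs_nonneg _)
      · have h4 : χ g j ^ n ≤ 1 := pow_le_one₀ (h.chi_pos g hg j).le (hj j hji).le
        calc χ g j ^ n * k j x ≤ χ g j ^ n * |k j x| :=
              mul_le_mul_of_nonneg_left (le_abs_self _) (pow_pos (h.chi_pos g hg j) n).le
          _ ≤ 1 * |k j x| := mul_le_mul_of_nonneg_right h4 (abs_nonneg _)
          _ = |k j x| := one_mul _
    have := mul_le_mul_of_nonneg_left h3 hC
    linarith
  have hfin := X.northcott A hA g x _ hbd
  obtain ⟨a, b, hab, heq⟩ : ∃ a b : ℕ, a < b ∧ X.act (g ^ a) x = X.act (g ^ b) x := by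
    by_contra hcon
    push Not at hcon
    have hinj : Function.Injective (fun n : ℕ => X.act (g ^ n) x) := by
      intro a b h
      rcases lt_trichotomy a b with h1 | h1 | h1
      · exact absurd h (hcon a b h1)
      · exact h1
      · exact absurd h.symm (hcon b a h1)
    exact Set.infinite_range_of_injective hinj hfin
  intro j
  have h1 : χ g j ^ a * k j x = χ g j ^ b * k j x := by
    rw [← k_pow h hk' hg, ← k_pow h hk' hg, heq]
  by_contra hne
  have h2 := mul_right_cancel₀ hne h1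
  by_cases hji : j = i
  · rw [hji] at h2
    exact (pow_lt_pow_right₀ hc hab).ne h2
  · exact (pow_lt_pow_right_of_lt_one₀ (h.chi_pos g hg j) (hj j hji) hab).ne' h2

/-- The main theorem on points of small arithmetic degree. -/
theorem small (hcan : S_can) (hgro : S_gro) (h : X.Eigen Γ θ χ Z) (he : StrictlyEnough Γ χ)
    (f : X.E) (hf : f ∈ Γ) :
    ∃ δ : ℝ, X.IsDyn f δ ∧
      (∀ x, x ∉ Z → ¬ X.IsArith f x δ →
        ∀ g ∈ Γ, (Set.range fun n : ℕ => X.act (g ^ n) x).Finite) ∧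
      ∀ P : Set X.V, HasNorthcott X P → {x | x ∈ P ∧ x ∉ Z ∧ ¬ X.IsArith f x δ}.Finite := by
  have he' : Enough Γ χ := fun i => by
    obtain ⟨g, hg, h1, h2⟩ := he i
    exact ⟨g, hg, h1, fun j hj => (h2 j hj).le⟩
  obtain ⟨k, hk, hk'⟩ := hcan X Γ r θ χ Z h he'
  have hr := nonempty_fin h
  obtain ⟨i₀, -, hmax⟩ := Finset.exists_max_image Finset.univ (χ f) ⟨hr.some, Finset.mem_univ _⟩
  have hle : ∀ j, χ f j ≤ χ f i₀ := fun j => hmax j (Finset.mem_univ j)
  obtain ⟨hdyn, hl1⟩ := dyn_max hgro h hf hle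
  have hzero : ∀ x, x ∉ Z → ¬ X.IsArith f x (χ f i₀) → ∀ j, k j x = 0 := by
    intro x hx hn
    obtain ⟨g, hg, hc, hj⟩ := he i₀
    refine zero_of_nonpos h hk hk' hg hc hj hx ?_
    by_contra hpos
    rw [not_le] at hpos
    exact hn (arith_pos hgro h hk hk' hf hle hl1 hx hpos)
  refine ⟨χ f i₀, hdyn, ?_, ?_⟩
  · intro x hx hn g hg
    obtain ⟨A, hA⟩ := X.ample_ne
    obtain ⟨C, C₂, hC, hup⟩ := ht_up h hk hA
    refine X.northcott A hA g x C₂ fun n => ?_
    refine (hup _ (off_pow h hg hx n)).trans ?_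
    have h1 : ∑ j, k j (X.act (g ^ n) x) = 0 := by
      refine Finset.sum_eq_zero fun j _ => ?_
      rw [k_pow h hk' hg, hzero x hx hn j, mul_zero]
    rw [h1, mul_zero, zero_add]
  · intro P hP
    obtain ⟨A, hA⟩ := X.ample_ne
    obtain ⟨C, C₂, hC, hup⟩ := ht_up h hk hA
    refine (hP A hA C₂).subset ?_
    rintro x ⟨hxP, hx, hn⟩
    refine ⟨hxP, (hup x hx).trans ?_⟩
    have h1 : ∑ j, k j x = 0 := Finset.sum_eq_zero fun j _ => hzero x hx hn j
    rw [h1, mul_zero, zero_add]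

/-- Maximal rank: strict form. -/
theorem lat_strict (E : Type) (_ : Monoid E) (Γ : Submonoid E) (r : ℕ) (χ : E → Fin r → ℝ)
    (hpos : ∀ g ∈ Γ, ∀ i, 0 < χ g i)
    (hmul : ∀ g ∈ Γ, ∀ h ∈ Γ, ∀ i, χ (g * h) i = χ g i * χ h i)
    (hone : ∀ i, χ 1 i = 1) (hmax : MaxRank Γ χ) : StrictlyEnough Γ χ := by
  intro i
  obtain ⟨hr, hinv, hprod, hspan⟩ := hmax
  let A : AddSubgroup (Fin r → ℝ) :=
    { carrier := {w : Fin r → ℝ | ∃ g ∈ Γ, w = fun i => Real.log (χ g i)}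
      zero_mem' := ⟨1, Γ.one_mem, by
        funext j
        rw [hone j, Real.log_one]
        rfl⟩
      add_mem' := by
        rintro a b ⟨g, hg, rfl⟩ ⟨h, hh, rfl⟩
        refine ⟨g * h, Γ.mul_mem hg hh, ?_⟩
        funext j
        rw [hmul g hg h hh j, Real.log_mul (hpos g hg j).ne' (hpos h hh j).ne']
        rfl
      neg_mem' := by
        rintro a ⟨g, hg, rfl⟩
        obtain ⟨h, hh, he⟩ := hinv g hg
        refine ⟨h, hh, ?_⟩
        funext j
        have h1 := hmul g hg h hh j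
        rw [he, hone] at h1
        have h2 : χ h j = (χ g j)⁻¹ := eq_inv_of_mul_eq_one_right h1.symm
        rw [h2, Real.log_inv]
        rfl }
  have hv := hspan (fun j => if j = i then (r : ℝ) - 1 else -1) (by
    have h1 : ∀ j : Fin r, (if j = i then (r : ℝ) - 1 else -1)
        = (if j = i then (r : ℝ) else 0) + (-1) := by
      intro j
      split_ifs <;> ring
    simp only [h1]
    rw [Finset.sum_add_distrib]
    simp)
  obtain ⟨B, hB⟩ := Pool.Agent.Y427.KS.approx A _ hv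
  obtain ⟨w, ⟨g, hg, rfl⟩, hw⟩ := hB (B + 1)
  have hB0 : 0 ≤ B := (abs_nonneg _).trans (hw i)
  have hr1 : (1 : ℝ) ≤ (r : ℝ) - 1 := by
    have : (2 : ℝ) ≤ r := by exact_mod_cast hr
    linarith
  refine ⟨g, hg, ?_, fun j hj => ?_⟩
  · have h1 := (abs_le.1 (hw i)).1
    rw [if_pos rfl] at h1
    have h2 : 0 < Real.log (χ g i) := by nlinarith
    exact (Real.log_pos_iff (hpos g hg i).le).1 h2
  · have h1 := (abs_le.1 (hw j)).2
    rw [if_neg hj] at h1
    have h2 : Real.log (χ g j) < 0 := by linarith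
    exact (Real.log_neg_iff (hpos g hg j)).1 h2

/-- Points of small arithmetic degree, both cases. -/
theorem small_all (X : DynVar) (Γ : Submonoid X.E) {r : ℕ} (θ : Fin r → X.Pic)
    (χ : X.E → Fin r → ℝ) (Z : Set X.V) (h : X.Eigen Γ θ χ Z)
    (hΓ : StrictlyEnough Γ χ ∨ MaxRank Γ χ) (f : X.E) (hf : f ∈ Γ) :
    ∃ δ : ℝ, X.IsDyn f δ ∧
      (∀ x, x ∉ Z → ¬ X.IsArith f x δ →
        ∀ g ∈ Γ, (Set.range fun n : ℕ => X.act (g ^ n) x).Finite) ∧
      ∀ P : Set X.V, HasNorthcott X P → {x | x ∈ P ∧ x ∉ Z ∧ ¬ X.IsArith f x δ}.Finite := by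
  have he : StrictlyEnough Γ χ := by
    rcases hΓ with he | hm
    · exact he
    · exact lat_strict X.E X.mon Γ r χ h.chi_pos
        (fun g hg g' hg' i => chi_mul h hg hg' i) (fun i => chi_one h i) hm
  exact small Pool.Agent.Y700.KS.can Pool.Agent.Y38.KS.Gro.gro h he f hf

end Pool.Agent.Y150.KS
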